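import Pool.Agent.H84.TO.TargetsR

/-!
The indicator of having no real root is a test function, and its value at a product of quadratics.
-/

open MeasureTheory Matrix Polynomial Filter Topology
open scoped ENNReal

namespace Pool.Agent.H84.TO

/-- a `2 × 2` matrix has no real eigenvalue iff the discriminant is negative -/
theorem nrm_two (B : Matrix (Fin 2) (Fin 2) ℝ) :
    (∀ x : ℝ, B.charpoly.eval x ≠ 0) ↔ B.trace ^ 2 - 4 * B.det < 0 := by
  have he : ∀ x : ℝ, B.charpoly.eval x = x ^ 2 - B.trace * x + B.det := by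
    intro x
    rw [Matrix.charpoly_fin_two]
    simp
  simp only [he]
  constructor
  · intro h
    by_contra hc
    rw [not_lt] at hc
    refine h ((B.trace + Real.sqrt (B.trace ^ 2 - 4 * B.det)) / 2) ?_
    have hs := Real.mul_self_sqrt hc
    linear_combination (1 / 4) * hs
  · intro h x hx
    nlinarith [sq_nonneg (2 * x - B.trace)]

theorem nrm_meas (N : ℕ) : Measurable (fun A : Matrix (Fin N) (Fin N) ℝ => nr A.charpoly) := by
  have hset : MeasurableSet {A : Matrix (Fin N) (Fin N) ℝ | ∀ x : ℝ, A.charpoly.eval x ≠ 0} := by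
    have hc : {A : Matrix (Fin N) (Fin N) ℝ | ∀ x : ℝ, A.charpoly.eval x ≠ 0}ᶜ
        = ⋃ k : ℕ, Prod.snd '' {p : (Set.Icc (-(k : ℝ)) k) × Matrix (Fin N) (Fin N) ℝ |
            (Matrix.scalar (Fin N) (p.1 : ℝ) - p.2).det = 0} := by
      ext A
      simp only [Set.mem_compl_iff, Set.mem_ofPred_eq, not_forall, not_not, Set.mem_iUnion,
        Set.mem_image, Prod.exists, exists_eq_right, Matrix.eval_charpoly]
      constructor
      · rintro ⟨x, hx⟩
        obtain ⟨k, hk⟩ := exists_nat_ge |x|
        exact ⟨k, ⟨x, abs_le.1 hk⟩, hx⟩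
      · rintro ⟨k, x, hx⟩
        exact ⟨x.1, hx⟩
    rw [← MeasurableSet.compl_iff, hc]
    refine MeasurableSet.iUnion fun k => IsClosed.measurableSet ?_
    refine isClosedMap_snd_of_compactSpace _ ?_
    refine isClosed_eq ?_ continuous_const
    refine Continuous.matrix_det ?_
    refine Continuous.sub ?_ continuous_snd
    simp only [Matrix.scalar_apply]
    exact Continuous.matrix_diagonal (by fun_prop)
  unfold nr
  exact Measurable.ite hset measurable_const measurable_const

theorem nrm : T_NRM := by
  refine ⟨⟨nrm_meas, fun N R => ⟨1, fun A _ => ?_⟩⟩, fun n B => ?_⟩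
  · unfold nr
    split_ifs <;> simp
  · have h1 : ∀ i, Set.indicator {B : Matrix (Fin 2) (Fin 2) ℝ | B.trace ^ 2 - 4 * B.det < 0}
        (fun _ => (1 : ℝ)) (B i) = nr (B i).charpoly := by
      intro i
      unfold nr
      by_cases h : ∀ x : ℝ, (B i).charpoly.eval x ≠ 0
      · rw [if_pos h, Set.indicator_of_mem]
        exact (nrm_two (B i)).1 h
      · rw [if_neg h, Set.indicator_of_notMem]
        exact fun hc => h ((nrm_two (B i)).2 hc)
    simp only [h1]
    by_cases h : ∀ i, ∀ x : ℝ, (B i).charpoly.eval x ≠ 0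
    · have h2 : ∀ x : ℝ, (∏ i, (B i).charpoly).eval x ≠ 0 := by
        intro x
        rw [Polynomial.eval_prod]
        exact Finset.prod_ne_zero_iff.2 fun i _ => h i x
      unfold nr
      rw [if_pos h2]
      symm
      exact Finset.prod_eq_one fun i _ => if_pos (h i)
    · push Not at h
      obtain ⟨i, x, hx⟩ := h
      have h2 : ¬ ∀ x : ℝ, (∏ i, (B i).charpoly).eval x ≠ 0 := by
        intro h3
        refine h3 x ?_
        rw [Polynomial.eval_prod]
        exact Finset.prod_eq_zero (Finset.mem_univ i) hx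
      unfold nr
      rw [if_neg h2]
      symm
      refine Finset.prod_eq_zero (Finset.mem_univ i) (if_neg ?_)
      exact fun h3 => h3 x hx

end Pool.Agent.H84.TO
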