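import Pool.Agent.H84.TO.TargetsH

/-!
Integration over quadratic divisors, from the area formula and the description of the fibres.
-/

open MeasureTheory Matrix Polynomial Filter Topology
open scoped ENNReal

namespace Pool.Agent.H84.TO

theorem qs (hARM : T_ARM) (hF1D : T_F1D) (hRSD : T_RSD) (hFIB : T_FIB) (hAED : T_AED)
    (hAEG : T_AEG) : T_QS := by
  intro b κ _ _ _ _ F θ hF hθ
  obtain ⟨hC, hdet⟩ := hF1D (Fin 2) b κ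
  have hcont : Continuous
      (Phi : Matrix ((Fin 2 ⊕ b) ⊕ κ) (Fin 2 ⊕ b) ℝ → Matrix ((Fin 2 ⊕ b) ⊕ κ) (Fin 2 ⊕ b) ℝ) :=
    hC.continuous
  have hPhi : Measurable
      (Phi : Matrix ((Fin 2 ⊕ b) ⊕ κ) (Fin 2 ⊕ b) ℝ → Matrix ((Fin 2 ⊕ b) ⊕ κ) (Fin 2 ⊕ b) ℝ) :=
    hcont.measurable
  have hZ : Measurable
      (Zof : Matrix ((Fin 2 ⊕ b) ⊕ κ) (Fin 2 ⊕ b) ℝ → Matrix (Fin 2) (Fin 2) ℝ) := by
    refine measurable_pi_lambda _ fun i => measurable_pi_lambda _ fun j => ?_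
    exact (measurable_pi_apply (Sum.inl j)).comp (measurable_pi_apply (Sum.inl (Sum.inl i)))
  have hA : Measurable
      (Aof : Matrix ((Fin 2 ⊕ b) ⊕ κ) (Fin 2 ⊕ b) ℝ → Matrix b b ℝ) := by
    refine measurable_pi_lambda _ fun i => measurable_pi_lambda _ fun j => ?_
    exact (measurable_pi_apply (Sum.inr j)).comp (measurable_pi_apply (Sum.inl (Sum.inr i)))
  have hg : Measurable (fun Y : Matrix ((Fin 2 ⊕ b) ⊕ κ) (Fin 2 ⊕ b) ℝ =>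
      F (Zof Y).charpoly (Aof Y).charpoly * θ (Phi Y)) :=
    (hF.comp (hZ.prodMk hA)).mul (hθ.comp hPhi)
  have h1 := hARM ((Fin 2 ⊕ b) ⊕ κ) (Fin 2 ⊕ b) Phi
    (fun Y => F (Zof Y).charpoly (Aof Y).charpoly * θ (Phi Y)) hC hg
  have h2 : ∀ Y : Matrix ((Fin 2 ⊕ b) ⊕ κ) (Fin 2 ⊕ b) ℝ,
      |(fderiv ℝ Phi Y).det| = |Rs (Zof Y).charpoly (Aof Y).charpoly| := by
    intro Y
    rw [hdet Y, hRSD (Fin 2) b (Aof Y) (Zof Y)]
  have hL : ∫⁻ Y, F (Zof Y).charpoly (Aof Y).charpoly *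
        ENNReal.ofReal |Rs (Zof Y).charpoly (Aof Y).charpoly| * θ (Phi Y)
      = ∫⁻ Y : Matrix ((Fin 2 ⊕ b) ⊕ κ) (Fin 2 ⊕ b) ℝ,
        F (Zof Y).charpoly (Aof Y).charpoly * θ (Phi Y) *
          ENNReal.ofReal |(fderiv ℝ Phi Y).det| := by
    refine lintegral_congr fun Y => ?_
    rw [h2 Y]
    ring
  rw [hL, h1]
  refine lintegral_congr_ae ?_
  filter_upwards [hAED (Fin 2 ⊕ b) κ, hAEG b κ] with Y0 hs hgr
  have h3 := hFIB b κ Y0 hs hgr F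
  rw [← h3, ← ENNReal.tsum_mul_right]
  have hiff : ∀ Y : Matrix ((Fin 2 ⊕ b) ⊕ κ) (Fin 2 ⊕ b) ℝ,
      (Phi Y = Y0 ∧ LinearMap.det (ric (Aof Y) (Zof Y)) ≠ 0) ↔
      (Phi Y = Y0 ∧ (fderiv ℝ Phi Y).det ≠ 0) := by
    intro Y
    rw [← abs_ne_zero (a := LinearMap.det (ric (Aof Y) (Zof Y))), ← hdet Y, abs_ne_zero]
  rw [← (Equiv.subtypeEquivRight hiff).tsum_eq (fun Y : {Y // Phi Y = Y0 ∧
    (fderiv ℝ Phi Y).det ≠ 0} => F (Zof Y.1).charpoly (Aof Y.1).charpoly * θ (Phi Y.1))]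
  refine tsum_congr fun Y => ?_
  change F (Zof Y.1).charpoly (Aof Y.1).charpoly * θ (Phi Y.1) = _
  rw [Y.2.1]

end Pool.Agent.H84.TO
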